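import Pool.Agent.Helper89.GP.GoalsA
import Pool.Agent.Helper89.GP.Basic

/-!
# Packet GP-CON: the mass of a slab in the cone
-/

namespace Pool.Agent.Helper83.GP

open Finset MeasureTheory
open Pool.Agent.Helper89.GP

variable {n : ℕ}

/-- the weight -/
noncomputable def W (x : Fin n → ℝ) : ENNReal := ENNReal.ofReal (Real.exp (-⨆ a, x a))

/-- the gamma density -/
noncomputable def hk (k : ℕ) (r : ℝ) : ℝ := Real.exp (-r) * r ^ k / (k.factorial : ℝ)

theorem hk_cont (k : ℕ) : Continuous (hk k) := by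
  unfold hk
  fun_prop

theorem hk_nonneg (k : ℕ) {r : ℝ} (hr : 0 ≤ r) : 0 ≤ hk k r := by
  unfold hk
  positivity

/-- the contribution of one linear extension to the density -/
noncomputable def gs (σ : Equiv.Perm (Fin n)) (u v : Fin n) (r : ℝ) : ℝ :=
  if σ u < σ v then (Set.Ici (0 : ℝ)).indicator (hk (po σ v - po σ u - 1)) r
  else (Set.Iio (0 : ℝ)).indicator (fun r => hk (po σ u - po σ v - 1) (-r)) r

theorem gs_nonneg (σ : Equiv.Perm (Fin n)) (u v : Fin n) (r : ℝ) : 0 ≤ gs σ u v r := by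
  unfold gs
  split_ifs
  · apply Set.indicator_nonneg
    intro x hx
    exact hk_nonneg _ hx
  · apply Set.indicator_nonneg
    intro x hx
    have : x < 0 := hx
    exact hk_nonneg _ (by linarith)

theorem gs_int (σ : Equiv.Perm (Fin n)) (u v : Fin n) (s t : ℝ) :
    IntervalIntegrable (gs σ u v) volume s t := by
  have h1 : ∀ k, IntervalIntegrable ((Set.Ici (0 : ℝ)).indicator (hk k)) volume s t := by
    intro k
    have := (hk_cont k).intervalIntegrable (μ := volume) s t
    exact ⟨this.1.indicator measurableSet_Ici, this.2.indicator measurableSet_Ici⟩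
  have h2 : ∀ k, IntervalIntegrable ((Set.Iio (0 : ℝ)).indicator (fun r => hk k (-r)))
      volume s t := by
    intro k
    have := ((hk_cont k).comp continuous_neg).intervalIntegrable (μ := volume) s t
    exact ⟨this.1.indicator measurableSet_Iio, this.2.indicator measurableSet_Iio⟩
  by_cases h : σ u < σ v
  · have : gs σ u v = (Set.Ici (0 : ℝ)).indicator (hk (po σ v - po σ u - 1)) := by
      funext r
      unfold gs
      rw [if_pos h]
    rw [this]
    exact h1 _
  · have : gs σ u v = (Set.Iio (0 : ℝ)).indicator (fun r => hk (po σ u - po σ v - 1) (-r)) := by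
      funext r
      unfold gs
      rw [if_neg h]
    rw [this]
    exact h2 _

theorem Ch_pos {σ : Equiv.Perm (Fin n)} {x : Fin n → ℝ} (hx : x ∈ Ch σ) {a b : Fin n}
    (h : σ a < σ b) : 0 < x b - x a := sub_pos.2 (hx.2 a b h)

theorem lint_one (hG : GamStmt) (σ : Equiv.Perm (Fin n)) (u v : Fin n) (s t : ℝ) (hst : s ≤ t)
    (h : σ u < σ v) :
    ∫⁻ x in Ch σ ∩ {x | s ≤ x v - x u ∧ x v - x u ≤ t}, W x =
      ENNReal.ofReal (∫ r in s..t, (Set.Ici (0 : ℝ)).indicator (hk (po σ v - po σ u - 1)) r) := by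
  obtain ⟨k, hk'⟩ : ∃ k, k = po σ v - po σ u - 1 := ⟨_, rfl⟩
  have hcase : ∀ s' t' : ℝ, 0 ≤ s' → s' ≤ t' →
      ∫⁻ x in Ch σ ∩ {x | s' ≤ x v - x u ∧ x v - x u ≤ t'}, W x =
      ENNReal.ofReal (∫ r in s'..t', (Set.Ici (0 : ℝ)).indicator (hk (po σ v - po σ u - 1)) r) := by
    intro s' t' h0 h1
    have h2 := hG n σ u v s' t' h h0 h1
    unfold W
    rw [h2]
    congr 1
    apply intervalIntegral.integral_congr
    intro r hr
    rw [Set.uIcc_of_le h1] at hr
    have hr0 : (0 : ℝ) ≤ r := h0.trans hr.1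
    show _ = (Set.Ici (0 : ℝ)).indicator (hk (po σ v - po σ u - 1)) r
    rw [Set.indicator_of_mem (show r ∈ Set.Ici (0 : ℝ) from hr0)]
    rfl
  rcases le_or_gt 0 s with hs | hs
  · exact hcase s t hs hst
  rcases le_or_gt 0 t with ht | ht
  · have e1 : Ch σ ∩ {x | s ≤ x v - x u ∧ x v - x u ≤ t} =
        Ch σ ∩ {x | 0 ≤ x v - x u ∧ x v - x u ≤ t} := by
      ext x
      constructor
      · rintro ⟨h1, _, h3⟩
        exact ⟨h1, (Ch_pos h1 h).le, h3⟩
      · rintro ⟨h1, _, h3⟩
        exact ⟨h1, by linarith [Ch_pos h1 h], h3⟩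
    rw [e1, hcase 0 t le_rfl ht]
    congr 1
    have hi : ∀ p q : ℝ, IntervalIntegrable ((Set.Ici (0 : ℝ)).indicator
        (hk (po σ v - po σ u - 1))) volume p q := by
      intro p q
      have := (hk_cont (po σ v - po σ u - 1)).intervalIntegrable (μ := volume) p q
      exact ⟨this.1.indicator measurableSet_Ici, this.2.indicator measurableSet_Ici⟩
    rw [← intervalIntegral.integral_add_adjacent_intervals (hi s 0) (hi 0 t)]
    have e2 : ∫ r in s..0, (Set.Ici (0 : ℝ)).indicator (hk (po σ v - po σ u - 1)) r = 0 := by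
      rw [intervalIntegral.integral_of_le hs.le, integral_Ioc_eq_integral_Ioo]
      rw [setIntegral_congr_fun (g := fun _ => (0 : ℝ)) measurableSet_Ioo]
      · simp
      · intro r hr
        exact Set.indicator_of_notMem (fun h' : (0 : ℝ) ≤ r => absurd hr.2 (not_lt.2 h')) _
    rw [e2, zero_add]
  · have e1 : Ch σ ∩ {x | s ≤ x v - x u ∧ x v - x u ≤ t} = ∅ := by
      ext x
      simp only [Set.mem_empty_iff_false, iff_false]
      rintro ⟨h1, _, h3⟩
      linarith [Ch_pos h1 h]
    rw [e1]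
    have e2 : ∫ r in s..t, (Set.Ici (0 : ℝ)).indicator (hk (po σ v - po σ u - 1)) r =
        ∫ r in s..t, (0 : ℝ) := by
      apply intervalIntegral.integral_congr
      intro r hr
      rw [Set.uIcc_of_le hst] at hr
      exact Set.indicator_of_notMem
        (fun h' : (0 : ℝ) ≤ r => absurd (hr.2.trans_lt ht) (not_lt.2 h')) _
    rw [e2]
    simp

theorem lint_gs (hG : GamStmt) (σ : Equiv.Perm (Fin n)) (u v : Fin n) (huv : u ≠ v) (s t : ℝ)
    (hst : s ≤ t) :
    ∫⁻ x in Ch σ ∩ {x | s ≤ x v - x u ∧ x v - x u ≤ t}, W x =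
      ENNReal.ofReal (∫ r in s..t, gs σ u v r) := by
  by_cases h : σ u < σ v
  · rw [lint_one hG σ u v s t hst h]
    congr 2
    funext r
    unfold gs
    rw [if_pos h]
  · have h' : σ v < σ u := lt_of_le_of_ne (not_lt.1 h) fun e => huv (σ.injective e).symm
    have e1 : Ch σ ∩ {x | s ≤ x v - x u ∧ x v - x u ≤ t} =
        Ch σ ∩ {x | -t ≤ x u - x v ∧ x u - x v ≤ -s} := by
      ext x
      constructor
      · rintro ⟨h1, h2, h3⟩
        exact ⟨h1, by linarith, by linarith⟩
      · rintro ⟨h1, h2, h3⟩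
        exact ⟨h1, by linarith, by linarith⟩
    rw [e1, lint_one hG σ v u (-t) (-s) (by linarith) h']
    congr 1
    rw [← intervalIntegral.integral_comp_neg
      (fun r => (Set.Ici (0 : ℝ)).indicator (hk (po σ u - po σ v - 1)) r)]
    rw [intervalIntegral.integral_of_le hst, intervalIntegral.integral_of_le hst]
    apply integral_congr_ae
    have h0 : ∀ᵐ r ∂(volume.restrict (Set.Ioc s t)), r ≠ (0 : ℝ) := by
      apply ae_restrict_of_ae
      rw [ae_iff]
      simp
    filter_upwards [h0] with r hr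
    unfold gs
    rw [if_neg h]
    rcases lt_or_gt_of_ne hr with h1 | h1
    · rw [Set.indicator_of_mem (show -r ∈ Set.Ici (0 : ℝ) from by
        show (0 : ℝ) ≤ -r
        linarith), Set.indicator_of_mem (show r ∈ Set.Iio (0 : ℝ) from h1)]
    · rw [Set.indicator_of_notMem (show -r ∉ Set.Ici (0 : ℝ) from fun h2 : (0 : ℝ) ≤ -r => by
        linarith), Set.indicator_of_notMem (show r ∉ Set.Iio (0 : ℝ) from fun h2 : r < 0 => by
        linarith)]

theorem bq_card (R : Fin n → Fin n → Prop) (hR : (LX R).Nonempty) (u v : Fin n) (t : ℝ) :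
    ((LX R).card : ℝ) * Ff R u v t = ∑ σ ∈ LX R,
      if σ u < σ v then t ^ (po σ v - po σ u - 1) / ((po σ v - po σ u - 1).factorial : ℝ)
      else 0 := by
  classical
  have hc := card_pos_real hR
  unfold Ff
  rw [mul_sum]
  have h1 : ∀ k ∈ range n, ((LX R).card : ℝ) * (bq R u v k * t ^ k / (k.factorial : ℝ)) =
      ∑ σ ∈ LX R, if po σ v = po σ u + (k + 1) then t ^ k / (k.factorial : ℝ) else 0 := by
    intro k _
    unfold bq
    rw [Pr_def, ← sum_filter, sum_const, nsmul_eq_mul]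
    field_simp
  rw [sum_congr rfl h1, sum_comm]
  apply sum_congr rfl
  intro σ _
  by_cases h : σ u < σ v
  · rw [if_pos h]
    have hlt : po σ u < po σ v := h
    have hn := po_lt_n σ v
    rw [sum_eq_single (po σ v - po σ u - 1)]
    · rw [if_pos (by omega)]
    · intro k _ hk
      rw [if_neg (by omega)]
    · intro hk
      rw [mem_range] at hk
      omega
  · rw [if_neg h]
    have hle : po σ v ≤ po σ u := by
      by_contra hcon
      exact h (not_le.1 hcon)
    apply sum_eq_zero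
    intro k _
    rw [if_neg (by omega)]

theorem Gd_card (R : Fin n → Fin n → Prop) (hR : (LX R).Nonempty) (u v : Fin n) (huv : u ≠ v)
    (t : ℝ) : ((LX R).card : ℝ) * Gd R u v t = ∑ σ ∈ LX R, gs σ u v t := by
  unfold Gd
  split_ifs with h
  · have h1 := bq_card R hR u v t
    rw [mul_left_comm, h1, mul_sum]
    apply sum_congr rfl
    intro σ _
    unfold gs
    split_ifs with h2
    · rw [Set.indicator_of_mem (show t ∈ Set.Ici (0 : ℝ) from h)]
      unfold hk
      ring
    · rw [Set.indicator_of_notMem (show t ∉ Set.Iio (0 : ℝ) from fun h3 : t < 0 => by linarith),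
        mul_zero]
  · have ht : t < 0 := not_le.1 h
    have h1 := bq_card R hR v u (-t)
    rw [mul_left_comm, h1, mul_sum]
    apply sum_congr rfl
    intro σ _
    unfold gs
    by_cases h2 : σ u < σ v
    · rw [if_pos h2, if_neg (not_lt.2 h2.le), mul_zero,
        Set.indicator_of_notMem (show t ∉ Set.Ici (0 : ℝ) from fun h3 : (0 : ℝ) ≤ t => by linarith)]
    · have h3 : σ v < σ u := lt_of_le_of_ne (not_lt.1 h2) fun e => huv (σ.injective e).symm
      rw [if_neg h2, if_pos h3, Set.indicator_of_mem (show t ∈ Set.Iio (0 : ℝ) from ht)]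
      unfold hk
      rw [neg_neg]
      ring

/-! ### the chambers cover the cone -/

theorem Ch_meas (σ : Equiv.Perm (Fin n)) : MeasurableSet (Ch σ) := by
  unfold Ch
  apply MeasurableSet.inter
  · have : {x : Fin n → ℝ | ∀ a, 0 < x a} = ⋂ a, {x | 0 < x a} := by
      ext x
      simp
    show MeasurableSet {x : Fin n → ℝ | ∀ a, 0 < x a}
    rw [this]
    exact MeasurableSet.iInter fun a => measurableSet_lt measurable_const (measurable_pi_apply a)
  · have : {x : Fin n → ℝ | ∀ a b, σ a < σ b → x a < x b} =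
        ⋂ a, ⋂ b, ⋂ (_ : σ a < σ b), {x | x a < x b} := by
      ext x
      simp
    show MeasurableSet {x : Fin n → ℝ | ∀ a b, σ a < σ b → x a < x b}
    rw [this]
    exact MeasurableSet.iInter fun a => MeasurableSet.iInter fun b =>
      MeasurableSet.iInter fun _ => measurableSet_lt (measurable_pi_apply a) (measurable_pi_apply b)

theorem slab_meas (u v : Fin n) (s t : ℝ) :
    MeasurableSet {x : Fin n → ℝ | s ≤ x v - x u ∧ x v - x u ≤ t} := by
  have h : Measurable fun x : Fin n → ℝ => x v - x u :=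
    (measurable_pi_apply v).sub (measurable_pi_apply u)
  exact (measurableSet_le measurable_const h).inter (measurableSet_le h measurable_const)

theorem exists_Ch (x : Fin n → ℝ) (h0 : ∀ a, 0 < x a) (hi : Function.Injective x) :
    ∃ σ : Equiv.Perm (Fin n), x ∈ Ch σ := by
  refine ⟨(Tuple.sort x)⁻¹, h0, fun a b hab => ?_⟩
  have h1 := Tuple.monotone_sort x
  have h2 := h1 hab.le
  simp only [Function.comp] at h2
  have e : ∀ c, (Tuple.sort x) ((Tuple.sort x)⁻¹ c) = c := fun c => by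
    rw [← Equiv.Perm.mul_apply, mul_inv_cancel, Equiv.Perm.one_apply]
  rw [e, e] at h2
  refine lt_of_le_of_ne h2 fun h3 => ?_
  have := hi h3
  rw [this] at hab
  exact lt_irrefl _ hab

theorem Ch_lt_iff {σ : Equiv.Perm (Fin n)} {x : Fin n → ℝ} (hx : x ∈ Ch σ) {a b : Fin n} :
    σ a < σ b ↔ x a < x b := by
  constructor
  · exact hx.2 a b
  · intro h
    by_contra hcon
    rcases (not_lt.1 hcon).lt_or_eq with h1 | h1
    · exact absurd (hx.2 b a h1) (not_lt.2 h.le)
    · rw [σ.injective h1] at h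
      exact lt_irrefl _ h

theorem Ch_unique {σ τ : Equiv.Perm (Fin n)} {x : Fin n → ℝ} (hσ : x ∈ Ch σ) (hτ : x ∈ Ch τ) :
    σ = τ := by
  have h1 : StrictMono (fun i => τ (σ⁻¹ i)) := by
    intro i j hij
    have h2 : σ (σ⁻¹ i) < σ (σ⁻¹ j) := by
      have e : ∀ c, σ (σ⁻¹ c) = c := fun c => by
        rw [← Equiv.Perm.mul_apply, mul_inv_cancel, Equiv.Perm.one_apply]
      rw [e, e]
      exact hij
    exact (Ch_lt_iff hτ).2 ((Ch_lt_iff hσ).1 h2)
  have h2 : (fun i => τ (σ⁻¹ i)) = id := by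
    have h3 : (OrderIso.refl (Fin n)) = StrictMono.orderIsoOfSurjective _ h1
        ((τ.surjective).comp (σ⁻¹).surjective) := Subsingleton.elim _ _
    funext i
    have h4 := congrArg (fun f : Fin n ≃o Fin n => f i) h3
    exact h4.symm
  ext1 a
  have h3 := congrFun h2 (σ a)
  simp only [id] at h3
  rw [← Equiv.Perm.mul_apply σ⁻¹ σ, inv_mul_cancel, Equiv.Perm.one_apply] at h3
  exact h3.symm

theorem null_eq (a b : Fin n) (hab : a ≠ b) : volume {x : Fin n → ℝ | x a = x b} = 0 := by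
  obtain ⟨L, hL⟩ : ∃ L : (Fin n → ℝ) →ₗ[ℝ] ℝ, L = (LinearMap.proj (R := ℝ)
      (φ := fun _ : Fin n => ℝ) a) - (LinearMap.proj (R := ℝ) (φ := fun _ : Fin n => ℝ) b) :=
    ⟨_, rfl⟩
  have h1 : {x : Fin n → ℝ | x a = x b} = (LinearMap.ker L : Set (Fin n → ℝ)) := by
    ext x
    simp [hL, sub_eq_zero]
  rw [h1]
  apply Measure.addHaar_submodule
  intro h
  have h2 : (Pi.single a 1 : Fin n → ℝ) ∈ LinearMap.ker L := by
    rw [h]
    trivial
  rw [LinearMap.mem_ker, hL] at h2
  simp [Pi.single_apply, hab.symm] at h2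

theorem inj_ae : ∀ᵐ x : Fin n → ℝ, Function.Injective x := by
  have h1 : ∀ a b : Fin n, ∀ᵐ x : Fin n → ℝ, a ≠ b → x a ≠ x b := by
    intro a b
    by_cases hab : a = b
    · exact Filter.Eventually.of_forall fun x h => absurd hab h
    · have h2 := null_eq a b hab
      rw [← compl_compl {x : Fin n → ℝ | x a = x b}] at h2
      have h3 : ∀ᵐ x : Fin n → ℝ, x ∈ {x : Fin n → ℝ | x a = x b}ᶜ := by
        rw [ae_iff]
        exact h2
      filter_upwards [h3] with x hx _
      exact hx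
  have h2 : ∀ᵐ x : Fin n → ℝ, ∀ a b : Fin n, a ≠ b → x a ≠ x b := by
    rw [ae_all_iff]
    intro a
    rw [ae_all_iff]
    exact h1 a
  filter_upwards [h2] with x hx a b hab
  by_contra hcon
  exact hx a b hcon hab

/-- **CON** -/
theorem con (hG : GamStmt) : ConStmt := by
  classical
  intro n R u v s t hR huv hst
  have h1 : ({x : Fin n → ℝ | (∀ a, 0 < x a) ∧ (∀ a b, R a b → x a < x b) ∧ s ≤ x v - x u ∧
      x v - x u ≤ t} : Set (Fin n → ℝ)) =ᵐ[volume]
      (⋃ σ ∈ LX R, (Ch σ ∩ {x | s ≤ x v - x u ∧ x v - x u ≤ t}) : Set (Fin n → ℝ)) := by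
    filter_upwards [inj_ae] with x hx
    apply propext
    constructor
    · rintro ⟨h1, h2, h3, h4⟩
      obtain ⟨σ, hσ⟩ := exists_Ch x h1 hx
      show x ∈ (⋃ σ ∈ LX R, (Ch σ ∩ {x | s ≤ x v - x u ∧ x v - x u ≤ t}) : Set (Fin n → ℝ))
      rw [Set.mem_iUnion₂]
      refine ⟨σ, mem_LX.2 fun a b hab => (Ch_lt_iff hσ).2 (h2 a b hab), hσ, h3, h4⟩
    · intro h
      have h' : x ∈ (⋃ σ ∈ LX R, (Ch σ ∩ {x | s ≤ x v - x u ∧ x v - x u ≤ t}) :
        Set (Fin n → ℝ)) := h
      rw [Set.mem_iUnion₂] at h'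
      obtain ⟨σ, hσ, h2, h3, h4⟩ := h'
      exact ⟨h2.1, fun a b hab => h2.2 a b (mem_LX.1 hσ a b hab), h3, h4⟩
  rw [setLIntegral_congr h1]
  rw [lintegral_biUnion_finset₀]
  · have h2 : ∀ σ ∈ LX R, ∫⁻ x in Ch σ ∩ {x | s ≤ x v - x u ∧ x v - x u ≤ t},
        ENNReal.ofReal (Real.exp (-⨆ a, x a)) = ENNReal.ofReal (∫ r in s..t, gs σ u v r) :=
      fun σ _ => lint_gs hG σ u v huv s t hst
    rw [sum_congr rfl h2, ← ENNReal.ofReal_sum_of_nonneg]
    · congr 1
      rw [← intervalIntegral.integral_finsetSum fun σ _ => gs_int σ u v s t,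
        ← intervalIntegral.integral_const_mul]
      apply intervalIntegral.integral_congr
      intro r _
      exact (Gd_card R hR u v huv r).symm
    · intro σ _
      exact intervalIntegral.integral_nonneg hst fun r _ => gs_nonneg σ u v r
  · intro σ _ τ _ hne
    apply Disjoint.aedisjoint
    rw [Set.disjoint_left]
    rintro x ⟨hx, _⟩ ⟨hx', _⟩
    exact hne (Ch_unique hx hx')
  · intro σ _
    exact ((Ch_meas σ).inter (slab_meas u v s t)).nullMeasurableSet

end Pool.Agent.Helper83.GP
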