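import Pool.Agent.Helper89.GP.GoalsA
import Pool.Agent.Helper89.GP.Basic

/-!
# Packet GP-BTW: comparison of the derivatives at zero
-/

namespace Pool.Agent.Helper83.GP

open Finset
open Pool.Agent.Helper89.GP

theorem bq_nonneg {n : ℕ} (R : Fin n → Fin n → Prop) (u v : Fin n) (k : ℕ) : 0 ≤ bq R u v k :=
  Pr_nonneg _

theorem Ff_ge {n : ℕ} (R : Fin n → Fin n → Prop) (u v : Fin n) (hn : 2 ≤ n) (t : ℝ) (ht : 0 ≤ t) :
    bq R u v 0 + bq R u v 1 * t ≤ Ff R u v t := by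
  unfold Ff
  have h1 : ∑ k ∈ range 2, bq R u v k * t ^ k / (k.factorial : ℝ) ≤
      ∑ k ∈ range n, bq R u v k * t ^ k / (k.factorial : ℝ) := by
    apply sum_le_sum_of_subset_of_nonneg
    · intro k hk
      rw [mem_range] at hk ⊢
      omega
    · intro k _ _
      have := bq_nonneg R u v k
      positivity
  refine le_trans (le_of_eq ?_) h1
  rw [sum_range_succ, sum_range_one]
  simp

/-- **BTW** -/
theorem btw (hE : ExbStmt) : BtwStmt := by
  intro n R u v hI hc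
  have hn : 2 ≤ n := by
    have h1 := hI.ne
    have h2 := u.isLt
    have h3 := v.isLt
    by_contra hcon
    apply h1
    apply Fin.ext
    omega
  have h0 := bq_nonneg R u v 0
  have hA : 0 ≤ An R u v := Pr_nonneg _
  obtain ⟨κ, hκ⟩ : ∃ κ, κ = 1 + bq R u v 0 / An R u v := ⟨_, rfl⟩
  have hκ1 : 1 ≤ κ := by
    rw [hκ]
    have : 0 ≤ bq R u v 0 / An R u v := div_nonneg h0 hA
    linarith
  rw [← hκ]
  by_contra hcon
  rw [not_le] at hcon
  obtain ⟨δ, hδ⟩ : ∃ δ, δ = bq R u v 1 - κ * bq R u v 0 := ⟨_, rfl⟩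
  have hδ0 : 0 < δ := by rw [hδ]; linarith
  have hB : 0 ≤ bq R u v 0 * κ ^ 2 := by positivity
  obtain ⟨t, ht⟩ : ∃ t, t = min (1 / κ) (δ / (bq R u v 0 * κ ^ 2 + 1)) := ⟨_, rfl⟩
  have ht0 : 0 < t := by
    rw [ht]
    exact lt_min (by positivity) (by positivity)
  have ht1 : κ * t ≤ 1 := by
    have : t ≤ 1 / κ := by rw [ht]; exact min_le_left _ _
    rw [le_div_iff₀ (by linarith)] at this
    linarith
  have ht2 : t * (bq R u v 0 * κ ^ 2 + 1) ≤ δ := by
    have : t ≤ δ / (bq R u v 0 * κ ^ 2 + 1) := by rw [ht]; exact min_le_right _ _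
    rwa [le_div_iff₀ (by linarith)] at this
  have h1 := Ff_ge R u v hn t ht0.le
  have h2 := hE n R u v t hI hc ht0.le
  rw [← hκ] at h2
  have h3 : Real.exp (κ * t) ≤ 1 + κ * t + (κ * t) ^ 2 := by
    have h4 : |κ * t| ≤ 1 := by
      rw [abs_of_nonneg (by positivity)]
      exact ht1
    have h5 := Real.abs_exp_sub_one_sub_id_le h4
    have h6 := (abs_le.1 h5).2
    linarith
  have h4 := mul_le_mul_of_nonneg_left h3 h0
  have h5 : bq R u v 1 * t ≤ bq R u v 0 * (κ * t + (κ * t) ^ 2) := by linarith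
  have h6 : δ * t ≤ bq R u v 0 * κ ^ 2 * t * t := by
    rw [hδ]
    nlinarith
  have h7 : δ ≤ bq R u v 0 * κ ^ 2 * t := le_of_mul_le_mul_right h6 ht0
  nlinarith

end Pool.Agent.Helper83.GP
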